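import Pool.Agent.helper48.TH.Spec3
import Pool.Agent.helper25.TWO.FIN

/-!
# Project TH (MP_f42afa_pr): row FNL, every site is seen or bad (helper50, after helper25)
-/

set_option autoImplicit false

namespace TP.TW

open DP MeasureTheory Finset

private theorem FNL_card {n : ℕ} (S : (Fin n × Fin n → Bool) → Finset (Fin n × Fin n)) :
    ∑ x : Fin n × Fin n → Bool, (#(S x) : ℝ) =
      ∑ p : Fin n × Fin n, (#{x : Fin n × Fin n → Bool | p ∈ S x} : ℝ) := by
  have h1 : ∀ x : Fin n × Fin n → Bool, (#(S x) : ℝ) =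
      ∑ p : Fin n × Fin n, if p ∈ S x then (1 : ℝ) else 0 := by
    intro x
    rw [Finset.sum_ite_mem, Finset.univ_inter]
    simp
  have h2 : ∀ p : Fin n × Fin n, (#{x : Fin n × Fin n → Bool | p ∈ S x} : ℝ) =
      ∑ x : Fin n × Fin n → Bool, if p ∈ S x then (1 : ℝ) else 0 := by
    intro p
    rw [Finset.card_filter]
    push_cast
    rfl
  rw [Finset.sum_congr rfl fun x _ => h1 x, Finset.sum_congr rfl fun p _ => h2 p, Finset.sum_comm]

private theorem FNL_pr (br2 : BR2_stmt) {n : ℕ} (E : (Fin n × Fin n → Bool) → Prop) [DecidablePred E] :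
    Pr {β : V → Bool | E (fun p => β (phi p))} =
      (#{x : Fin n × Fin n → Bool | E x} : ℝ) / 2 ^ (n * n) := by
  rw [br2 n E]
  congr 3
  ext x
  simp

theorem FNL (h1 : REA_stmt) (h2 : REB_stmt) (h3 : BR1_stmt) (h4 : BR2_stmt) : FNL_stmt := by
  classical
  have := TWO_prob
  intro n S C hn hS hdec
  have hinj : ∀ p ∈ (univ : Finset (Fin n × Fin n)), ∀ q ∈ (univ : Finset (Fin n × Fin n)),
      phi p = phi q → p = q := fun p _ q _ h => phi_inj h
  rw [Finset.sum_image hinj]
  have hcost' : (∑ x : Fin n × Fin n → Bool, (#(S x ∪ C x) : ℝ)) / 2 ^ (n * n) =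
      ∑ p : Fin n × Fin n,
      (#{x : Fin n × Fin n → Bool | p ∈ S x ∪ C x} : ℝ) / 2 ^ (n * n) := by
    rw [FNL_card (fun x => S x ∪ C x), Finset.sum_div]
  rw [hcost']
  -- every site is seen or bad
  have hp : ∀ p : Fin n × Fin n, 1 ≤
      (#{x : Fin n × Fin n → Bool | p ∈ S x ∪ C x} : ℝ) / 2 ^ (n * n) +
      Pr {β : V → Bool | BAD (col β) ((S fun q => β (phi q)).image phi) (phi p)} := by
    intro p
    rw [← FNL_pr h4 (fun x => p ∈ S x ∪ C x)]
    have hsub : (Set.univ : Set (V → Bool)) ⊆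
        {β : V → Bool | BAD (col β) ((S fun q => β (phi q)).image phi) (phi p)} ∪
          {β : V → Bool | p ∈ (S fun q => β (phi q)) ∪ (C fun q => β (phi q))} := by
      intro β _
      by_cases hb : BAD (col β) ((S fun q => β (phi q)).image phi) (phi p)
      · exact Or.inl hb
      · refine Or.inr ?_
        show p ∈ (S fun q => β (phi q)) ∪ (C fun q => β (phi q))
        by_cases hpS : p ∈ S fun q => β (phi q)
        · exact Finset.mem_union_left _ hpS
        · obtain ⟨-, y, y', hy, hy', hcy, hcy'⟩ :=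
            rel_of_not_bad h1 h2 h3 hn (S fun q => β (phi q)) β p hpS hb
          by_contra hpB
          have h5 := hS (fun q => β (phi q)) y fun q hq => (hy q hq).symm
          refine hcy' ((hdec y y' fun q hq => ?_).mp hcy)
          rw [h5.1, h5.2] at hq
          exact (hy' q fun h => hpB (h ▸ hq)).symm
    have h1 : (1 : ℝ) = P1.real Set.univ := by simp
    have h2 := measureReal_mono (μ := P1) hsub
    have h3 := measureReal_union_le (μ := P1)
      {β : V → Bool | BAD (col β) ((S fun q => β (phi q)).image phi) (phi p)}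
      {β : V → Bool | p ∈ (S fun q => β (phi q)) ∪ (C fun q => β (phi q))}
    have h4 : Pr {β : V → Bool | BAD (col β) ((S fun q => β (phi q)).image phi) (phi p)} =
      P1.real {β : V → Bool | BAD (col β) ((S fun q => β (phi q)).image phi) (phi p)} := rfl
    have h5 : Pr {β : V → Bool | p ∈ (S fun q => β (phi q)) ∪ (C fun q => β (phi q))} =
      P1.real {β : V → Bool | p ∈ (S fun q => β (phi q)) ∪ (C fun q => β (phi q))} := rfl
    rw [h4, h5]
    linarith
  have hsum := Finset.sum_le_sum fun p (_ : p ∈ (univ : Finset (Fin n × Fin n))) => hp p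
  rw [Finset.sum_add_distrib] at hsum
  have hn2 : ∑ _p : Fin n × Fin n, (1 : ℝ) = (n : ℝ) ^ 2 := by
    simp [Fintype.card_prod, sq]
  rw [hn2] at hsum
  exact hsum

end TP.TW
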