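import Pool.Agent.helper48.TH.Spec3
import Pool.Agent.helper25.TWO.FIN

/-!
# Project TH (MP_f42afa_pr): row FNR, algorithms with any fixed number of rounds (helper50, after helper25)
-/

set_option autoImplicit false

namespace TP.TW

open DP MeasureTheory Finset

/-- The sets seen, on the lattice. -/
private def FNR_lift {n : ℕ} (S : ℕ → (Fin n × Fin n → Bool) → Finset (Fin n × Fin n)) (i : ℕ)
    (β : V → Bool) : Finset V := (S i fun p => β (phi p)).image phi

private theorem FNR_card {n : ℕ} (S : (Fin n × Fin n → Bool) → Finset (Fin n × Fin n)) :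
    ∑ x : Fin n × Fin n → Bool, (#(S x) : ℝ) =
      ∑ p : Fin n × Fin n, (#{x : Fin n × Fin n → Bool | p ∈ S x} : ℝ) := by
  have h1 : ∀ x : Fin n × Fin n → Bool, (#(S x) : ℝ) =
      ∑ p : Fin n × Fin n, if p ∈ S x then (1 : ℝ) else 0 := by
    intro x
    rw [Finset.sum_ite_mem, Finset.univ_inter]
    simp
  have h2 : ∀ p : Fin n × Fin n, (#{x : Fin n × Fin n → Bool | p ∈ S x} : ℝ) =
      ∑ x : Fin n × Fin n → Bool, if p ∈ S x then (1 : ℝ) else 0 := by
    intro p
    rw [Finset.card_filter]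
    push_cast
    rfl
  rw [Finset.sum_congr rfl fun x _ => h1 x, Finset.sum_congr rfl fun p _ => h2 p, Finset.sum_comm]

private theorem FNR_pr (br2 : BR2_stmt) {n : ℕ} (E : (Fin n × Fin n → Bool) → Prop) [DecidablePred E] :
    Pr {β : V → Bool | E (fun p => β (phi p))} =
      (#{x : Fin n × Fin n → Bool | E x} : ℝ) / 2 ^ (n * n) := by
  rw [br2 n E]
  congr 3
  ext x
  simp

theorem FNR (h1 : FNL_stmt) (h2 : SUG_stmt) (h3 : DRR_stmt) (h4 : BR2_stmt) : FNR_stmt := by
  classical
  have := TWO_prob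
  intro r
  obtain ⟨K, hK, hdr⟩ := h3 r
  obtain ⟨C, hC, hsug⟩ := h2 r
  refine ⟨1 / (2 ^ (r + 1) + C * K), by positivity, fun n hn S hS0 hSm hSa hdec => ?_⟩
  have hlog := TWO_log hn
  have hlog0 : (0 : ℝ) < Real.log n := by linarith
  have hpow : (0 : ℝ) < 2 ^ (n * n) := by positivity
  have hRS := hdr ((univ : Finset (Fin n × Fin n)).image phi) (FNR_lift S) ⟨fun v hv => by
    obtain ⟨p, -, rfl⟩ := Finset.mem_image.mp hv
    exact phi_br p, fun β => by simp only [FNR_lift, hS0, Finset.image_empty], fun i β =>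
      ⟨Finset.image_subset_image (hSm i _), Finset.image_subset_image (Finset.subset_univ _),
        fun β' h => by
          simp only [FNR_lift]
          rw [hSa i (fun p => β (phi p)) (fun p => β' (phi p))]
          intro p hp
          exact (h (phi p) (Finset.mem_image_of_mem phi hp)).symm⟩⟩
  have hbad := hsug n (FNR_lift S (r + 1)) _ _ K hn (Finset.Subset.refl _) hRS
  have hfnl := h1 n (S (r + 1)) (S (r + 2)) (by omega)
    (fun x y hxy => ⟨hSa r x y fun p hp => hxy p (hSm r x hp), hSa (r + 1) x y hxy⟩)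
    (fun x y hxy => hdec x y fun p hp => hxy p (Finset.mem_union_right _ hp))
  have hun : ∀ x : Fin n × Fin n → Bool, S (r + 1) x ∪ S (r + 2) x = S (r + 2) x :=
    fun x => Finset.union_eq_right.mpr (hSm (r + 1) x)
  simp only [hun] at hfnl
  clear hun
  -- the average cost
  obtain ⟨cost, hcost⟩ : ∃ cost : ℝ, cost =
      (∑ x : Fin n × Fin n → Bool, (#(S (r + 2) x) : ℝ)) / 2 ^ (n * n) := ⟨_, rfl⟩
  rw [← hcost] at hfnl ⊢
  have hcost' : cost = ∑ p : Fin n × Fin n,
      (#{x : Fin n × Fin n → Bool | p ∈ S (r + 2) x} : ℝ) / 2 ^ (n * n) := by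
    rw [hcost, FNR_card, Finset.sum_div]
  have hinj : ∀ p ∈ (univ : Finset (Fin n × Fin n)), ∀ q ∈ (univ : Finset (Fin n × Fin n)),
      phi p = phi q → p = q := fun p _ q _ h => phi_inj h
  have hbad2 : ∑ v ∈ (univ : Finset (Fin n × Fin n)).image phi,
      Pr {β : V → Bool | v ∈ FNR_lift S (r + 1) β} =
      ∑ p : Fin n × Fin n, Pr {β : V → Bool | phi p ∈ FNR_lift S (r + 1) β} :=
    Finset.sum_image hinj
  rw [hbad2] at hbad
  -- the weight
  have hw : ∑ p : Fin n × Fin n, Pr {β : V → Bool | phi p ∈ FNR_lift S (r + 1) β} ≤ cost := by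
    rw [hcost']
    refine Finset.sum_le_sum fun p _ => ?_
    have h1 : {β : V → Bool | phi p ∈ FNR_lift S (r + 1) β} =
        {β : V → Bool | p ∈ S (r + 1) fun q => β (phi q)} := by
      ext β
      simp only [FNR_lift, Set.mem_ofPred_eq]
      constructor
      · intro h
        obtain ⟨q, hq, hqp⟩ := Finset.mem_image.mp h
        rwa [← phi_inj hqp]
      · exact fun h => Finset.mem_image_of_mem phi h
    have h2 := FNR_pr h4 (n := n) (fun x => p ∈ S (r + 1) x)
    rw [h1, h2]
    refine div_le_div_of_nonneg_right ?_ hpow.le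
    have h3 : ({x : Fin n × Fin n → Bool | p ∈ S (r + 1) x} : Finset _) ⊆
        ({x : Fin n × Fin n → Bool | p ∈ S (r + 2) x} : Finset _) := by
      intro x hx
      simp only [Finset.mem_filter, Finset.mem_univ, true_and] at hx ⊢
      exact hSm (r + 1) x hx
    exact_mod_cast Finset.card_le_card h3
  have hcost0 : 0 ≤ cost := by
    rw [hcost]
    exact div_nonneg (Finset.sum_nonneg fun _ _ => Nat.cast_nonneg _) hpow.le
  have hl : (1 : ℝ) ≤ 2 ^ (r + 1) * Real.log n ^ (r + 1) := by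
    rw [← mul_pow]
    exact one_le_pow₀ (by linarith)
  have h6 : C * K * Real.log n ^ (r + 1) *
      ∑ p : Fin n × Fin n, Pr {β : V → Bool | phi p ∈ FNR_lift S (r + 1) β} ≤
      C * K * Real.log n ^ (r + 1) * cost := mul_le_mul_of_nonneg_left hw (by positivity)
  have hb3 : ∑ v₀ ∈ (univ : Finset (Fin n × Fin n)).image phi,
      Pr {β | BAD (col β) ((S (r + 1) fun q => β (phi q)).image phi) v₀} ≤
      C * K * Real.log n ^ (r + 1) *
        ∑ p : Fin n × Fin n, Pr {β : V → Bool | phi p ∈ FNR_lift S (r + 1) β} := hbad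
  have h7 : (n : ℝ) ^ 2 ≤ (2 ^ (r + 1) + C * K) * (Real.log n ^ (r + 1) * cost) := by
    nlinarith
  have h8 : (0 : ℝ) < 2 ^ (r + 1) + C * K := by positivity
  have h9 : (0 : ℝ) < Real.log n ^ (r + 1) := by positivity
  rw [div_le_iff₀ h9, one_div, ← div_eq_inv_mul, div_le_iff₀ h8]
  linarith

end TP.TW
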